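import Pool.Agent.K7.H29.FC10

/-!
# The assertion for `|x| <= 60` and for `|x| <= sqrt t - 4`

`amp x t` is the amplitude `a(x,t)` (`Pool/Agent/K7/H29/FC3.lean`, together with `stepVal`, `turns`
and `paths`).

Proof. Put `A = (t + x)/2 - 1`, `B = (t - x)/2 - 1`, let `R`, `S` be the coefficients of `z^B` and
`z^(B+1)` in `(1 - z)^A (1 + z)^B`. Then `a(x,t) = 2^((1-t)/2) (R + i S)`. With `a = A + 1`, `b = B` and
`d = a - b` the step from `x` to `x + 2` in a row is
`r' = r - (d(d-1)/(ab)) r - ((b+1)d/(ab)) s`, `s' = s + ((d-1)/b) r + (1/b) s`,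
a slow rotation: both coordinates change by at most `(d/b) max(|r|,|s|)`. In the middle of the row
one coordinate is zero and the other is not (`x = 0`), or the two have the same absolute value
(`x = 1`). So up to `x` about `sqrt t` the coordinates which are not zero at the start keep their
sign, and the coordinate which is zero at `x = 0` becomes nonzero and stays so. The left half of the
row follows by the symmetries `R(A,B) = R(B,A)` and `(B+1) S(A,B) = A S(B+1,A-1)`. For `|x| <= 60` this
leaves finitely many `t`; they are checked modulo `2^61 - 1` with the recurrence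
`(A+1) R(A+1,B+1) = x R + t S`, `(B+2) S(A+1,B+1) = -(t R + x S)` in each column.
-/

set_option autoImplicit false

namespace Pool.Agent.Results.MP_0d3661_nt.CentralRegion

open Pool.Agent.K7.H29.FC

/-- Let `-t + 2 < x < t`, `x + t` even, `x ≠ 0`, and `|x| ≤ 60` or `(|x| + 3)(|x| + 4) < t` (which holds
for `|x| ≤ √t - 4`). Then `Re a(x,t) ≠ 0`, and `Im a(x,t) ≠ 0` unless `x = 2` or `(x,t)` is `(5,11)` or
`(-3,11)`. -/
theorem result (x : ℤ) (t : ℕ) (hp : Even (x + t)) (h1 : -(t : ℤ) + 2 < x) (h2 : x < t)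
    (h : |x| ≤ 60 ∨ (|x| + 3) * (|x| + 4) < t) (hx : x ≠ 0) :
    (amp x t).re ≠ 0 ∧
      (x ≠ 2 → ¬ (x = 5 ∧ t = 11) → ¬ (x = -3 ∧ t = 11) → (amp x t).im ≠ 0) :=
  central x t hp h1 h2 h hx

end Pool.Agent.Results.MP_0d3661_nt.CentralRegion
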