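import Pool.Agent.K7.H29.FC8

/-!
# At least `T^0.66` rows up to `T` without a zero of the real part

`amp x t` is the amplitude `a(x,t)` (`Pool/Agent/K7/H29/FC3.lean`, together with `stepVal`, `turns`
and `paths`).

Proof. Let `R(A,B)` be the coefficient of `z^B` in `(1 - z)^A (1 + z)^B`; `Re a(x,t)` is a nonzero
multiple of it for `A = (t + x)/2 - 1`, `B = (t - x)/2 - 1`. For a prime `p` it satisfies a congruence
of Lucas type: `R(a + pA, b + pB) = R(a,b) R(A,B)` modulo `p` for `0 <= a, b < p`
(`R_lucas` in `Pool/Agent/K7/H29/FC7.lean`). Call a digit `d` good if `R(a,b)` is not divisible by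
`p` whenever `a + b` or `a + b + 1` is `d` modulo `p`. If all digits of `n` in base `p` are good, then
no `R(A,B)` with `A + B = n` is divisible by `p`. For `p = 167` there are thirty good digits
(`chk167`, a table of `167^2` entries), and `log 30 / log 167 = 0.6645...`. (For `p = 5` the good
digits are `0` and `4`.)
-/

set_option autoImplicit false

namespace Pool.Agent.Results.MP_0d3661_nt.CompleteRows

open Pool.Agent.K7.H29.FC

/-- For every `k` there are at least `30^k` numbers `t` with `2 ≤ t < 167^k + 2` such that
`Re a(x,t) ≠ 0` for all `x` with `-t + 2 < x < t` and `x + t` even (`x = 0` included). -/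
theorem result (k : ℕ) :
    30 ^ k ≤ {t : ℕ | 2 ≤ t ∧ t < 167 ^ k + 2 ∧ ∀ x : ℤ, -(t : ℤ) + 2 < x → x < t →
      Even (x + t) → (amp x t).re ≠ 0}.ncard :=
  complete_rows k

end Pool.Agent.Results.MP_0d3661_nt.CompleteRows
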