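import Pool.Agent.K7.H29.FC4

/-!
# Few zeros of the real and the imaginary part in every row

`amp x t` is the amplitude `a(x,t)` (`Pool/Agent/K7/H29/FC3.lean`, together with `stepVal`, `turns`
and `paths`).

Proof. Put `A = (t + x)/2 - 1`, `B = (t - x)/2 - 1` and let `R`, `S` be the coefficients of `z^B` and
`z^(B+1)` in `(1 - z)^A (1 + z)^B`. Then `a(x,t) = 2^((1-t)/2) (R + i S)`. In a row (`A + B = n`
fixed) the vector `(R,S)` at `(A+1,B-1)` is a matrix of determinant `(B+1)/B` times the vector at
`(A,B)`, with entries `(quadratic polynomial in A)/(B(A+1))`. The vector never vanishes. So if `R`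
vanishes at `A` and at `A + h`, then `A` is a zero of an entry of a product of `h` such matrices, a
polynomial of degree at most `2h`. This polynomial is not zero: for `B < -1` the four entries of each
factor have the signs `-, +, +, -`. So for each `h` there are at most `2h` such `A`, and the same
holds for `S`. With `H` about `t^(1/3)` this gives at most `n/H + 1 + H(H-1)` zeros of each.
-/

set_option autoImplicit false

namespace Pool.Agent.Results.MP_0d3661_nt.FewZerosPerRow

open Pool.Agent.K7.H29.FC

/-- For every `t`, the number of the integers `x` with `-t + 2 < x < t` and `x + t` even for which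
`Re a(x,t) = 0` or `Im a(x,t) = 0` is at most `8 t^(2/3)`. -/
theorem result (t : ℕ) :
    (({x : ℤ | -(t : ℤ) + 2 < x ∧ x < t ∧ Even (x + t) ∧
      ((amp x t).re = 0 ∨ (amp x t).im = 0)}.ncard : ℕ) : ℝ) ≤ 8 * (t : ℝ) ^ (2 / 3 : ℝ) :=
  main t

end Pool.Agent.Results.MP_0d3661_nt.FewZerosPerRow
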