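import Pool.Agent.K7.H29.FC6

/-!
# Zeros on the lines `(t + x)/2 = m` and the distance from `m` to a prime

`amp x t` is the amplitude `a(x,t)` (`Pool/Agent/K7/H29/FC3.lean`, together with `stepVal`, `turns`
and `paths`). A point `(x,t)` is written as `x = u - v`, `t = u + v` (`u` steps to the right and `v`
steps to the left).

Proof. Let `R(A,B)`, `S(A,B)` be the coefficients of `z^B` and `z^(B+1)` in `(1 - z)^A (1 + z)^B`, so
that `a(u - v, u + v)` is a positive multiple of `R + i S` at `A = u - 1`, `B = v - 1`. Modulo the odd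
prime `p` one has `R(p-1,B) = S(p-1,B) = 2^B` for `B <= p - 2`, and the recurrences give
`R(p-1-j,B) = 2^B r_j(B)`, `S(p-1-j,B) = 2^B s_j(B)` modulo `p` with polynomials `r_j`, `s_j` of degree
exactly `j` over the field with `p` elements. So each of them has at most `j` zeros `B <= p - 2`.
The lines `v = const` follow by the symmetries of `R` and `S`.
-/

set_option autoImplicit false

namespace Pool.Agent.Results.MP_0d3661_nt.ZerosNearPrimes

open Pool.Agent.K7.H29.FC

/-- Let `p` be an odd prime and `1 ≤ m ≤ p`. On the line `u = m` at most `p - m` points with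
`1 ≤ v < p` have `Re a = 0`, and at most `p - m` have `Im a = 0`. On the line `v = m` at most
`p - m` points with `1 ≤ u < p` have `Re a = 0`. On the line `v = m - 1 ≥ 1` at most `p - m` points
with `2 ≤ u ≤ p` have `Im a = 0`. -/
theorem result (p m : ℕ) (hp : p.Prime) (h2 : p ≠ 2) (hm : 1 ≤ m) (hmp : m ≤ p) :
    {v : ℕ | 1 ≤ v ∧ v < p ∧ (amp ((m : ℤ) - v) (m + v)).re = 0}.ncard ≤ p - m ∧
    {v : ℕ | 1 ≤ v ∧ v < p ∧ (amp ((m : ℤ) - v) (m + v)).im = 0}.ncard ≤ p - m ∧
    {u : ℕ | 1 ≤ u ∧ u < p ∧ (amp ((u : ℤ) - m) (u + m)).re = 0}.ncard ≤ p - m ∧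
    (2 ≤ m → {u : ℕ | 2 ≤ u ∧ u ≤ p ∧ (amp ((u : ℤ) - ((m - 1 : ℕ) : ℤ)) (u + (m - 1))).im = 0}.ncard
      ≤ p - m) :=
  lines p m hp h2 hm hmp

end Pool.Agent.Results.MP_0d3661_nt.ZerosNearPrimes
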